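import Pool.Agent.H91.OC.Step

set_option autoImplicit false

/-! Exterior multiplication by a vector and the Hodge star on alternating forms. -/

namespace Pool.Agent.H21.OS

open Pool.Agent.H61.YP Pool.Agent.H8.RG Pool.Agent.H91.OC
open scoped RealInnerProductSpace BigOperators

variable {n : ℕ}

/-- exterior multiplication by a vector, as a bilinear map -/
noncomputable def LB (n p : ℕ) : E n →ₗ[ℝ] Form n p →ₗ[ℝ] Form n (p + 1) :=
  LinearMap.mk₂ ℝ (fun x α => AlternatingMap.alternatizeUncurryFin
      ((innerₛₗ ℝ x : E n →ₗ[ℝ] ℝ).smulRight α))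
    (fun x y α => by
      rw [← AlternatingMap.alternatizeUncurryFin_add]
      congr 1
      ext z v
      simp [add_mul])
    (fun c x α => by
      rw [← AlternatingMap.alternatizeUncurryFin_smul]
      congr 1
      ext z v
      simp [mul_assoc])
    (fun x α β => by
      rw [← AlternatingMap.alternatizeUncurryFin_add]
      congr 1
      ext z v
      simp [mul_add])
    (fun c x α => by
      rw [← AlternatingMap.alternatizeUncurryFin_smul]
      congr 1
      ext z v
      simp
      ring)

/-- exterior multiplication by a vector -/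
noncomputable def Lw {p : ℕ} (x : E n) (α : Form n p) : Form n (p + 1) := LB n p x α

/-- the first `p` standard vectors -/
noncomputable def fr (n p : ℕ) (i : Fin p) : E n := if h : (i : ℕ) < n then e ⟨i, h⟩ else 0

/-- the Hodge star (meaningful when `p + k = n`) -/
noncomputable def st : (k : ℕ) → {p : ℕ} → Form n p →ₗ[ℝ] Form n k
  | 0, p =>
    { toFun := fun α => AlternatingMap.constOfIsEmpty ℝ (E n) (Fin 0) (α (fr n p))
      map_add' := fun α β => by ext v; simp
      map_smul' := fun c α => by ext v; simp }
  | k + 1, p =>
    ((k : ℝ) + 1)⁻¹ • (AlternatingMap.alternatizeUncurryFinLM (R := ℝ) (M := E n) (N := ℝ)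
      (n := k)) ∘ₗ
      { toFun := fun α => (st k (p := p + 1)) ∘ₗ ((LB n p).flip α)
        map_add' := fun α β => by ext x v; simp
        map_smul' := fun c α => by ext x v; simp }

end Pool.Agent.H21.OS
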