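import Pool.Agent.H21.OS.Norm
import Pool.Agent.H21.OE.Final

set_option autoImplicit false

/-! The dual of the sharp second contraction bound. -/

namespace Pool.Agent.H21.OS

open Pool.Agent.H61.YP Pool.Agent.H8.RG Pool.Agent.H91.OC Pool.Agent.H21.OE
open scoped RealInnerProductSpace BigOperators

variable {n : ℕ}

lemma inner_e (i j : Fin n) : ⟪(e i : E n), e j⟫ = dl i j := by
  unfold e dl
  rw [EuclideanSpace.inner_single_left]
  by_cases h : i = j
  · subst h; simp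
  · simp [h]

lemma ip_sub_right {q : ℕ} (φ ψ χ : Form n q) : ip φ (ψ - χ) = ip φ ψ - ip φ χ := by
  have := (ipB n q φ).map_sub ψ χ
  simpa using this

lemma ip_add_right {q : ℕ} (φ ψ χ : Form n q) : ip φ (ψ + χ) = ip φ ψ + ip φ χ := by
  have := (ipB n q φ).map_add ψ χ
  simpa using this

lemma ip_smul_right {q : ℕ} (c : ℝ) (φ ψ : Form n q) : ip φ (c • ψ) = c * ip φ ψ := by
  rw [ip_comm, ip_smul_left, ip_comm]

lemma Lw_sub {p : ℕ} (x : E n) (α β : Form n p) : Lw x (α - β) = Lw x α - Lw x β :=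
  (LB n p x).map_sub α β

lemma Lw_smul {p : ℕ} (x : E n) (c : ℝ) (α : Form n p) : Lw x (c • α) = c • Lw x α :=
  (LB n p x).map_smul c α

/-- `⟨ω, y ∧ α⟩` -/
lemma adj' {p : ℕ} (x : E n) (β : Form n (p + 1)) (α : Form n p) :
    ip β (Lw x α) = ((p : ℝ) + 1) * ip (β.curryLeft x) α := by
  rw [ip_comm, adj, ip_comm]

/-- `⟨x ∧ ω, y ∧ ω⟩` -/
lemma ip_wedge {q : ℕ} (x y : E n) (ω : Form n (q + 1)) :
    ip (Lw x ω) (Lw y ω) = ((q : ℝ) + 2) * (⟪x, y⟫ * ip ω ω - ((q : ℝ) + 1) * MB ω x y) := by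
  rw [adj, car, ip_sub_right, ip_smul_right, adj', MB_apply, real_inner_comm,
    ip_comm (ω.curryLeft y)]
  push_cast
  ring

lemma MB_st {κ q : ℕ} (hn : n = κ + q + 4) (ω : Form n (q + 2)) (x y : E n) :
    MB (st (κ + 2) ω) x y = (((κ + 1).factorial : ℝ) / ((q + 3).factorial : ℝ))
      * (((q : ℝ) + 3) * (⟪x, y⟫ * ip ω ω - ((q : ℝ) + 2) * MB ω x y)) := by
  rw [MB_apply, st_curry, st_curry, st_ip (κ + 1) (q + 3) (by omega), ip_wedge]
  push_cast
  ring

/-- the double wedge -/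
lemma ip_wedge2 {q : ℕ} (ω : Form n (q + 2)) (l j i k : Fin n) :
    ip (Lw (e j) (Lw (e l) ω)) (Lw (e k) (Lw (e i) ω))
      = ((q : ℝ) + 4) * ((q : ℝ) + 3) * (
        dl j k * (dl l i * ip ω ω - ((q : ℝ) + 2) * MB ω (e l) (e i))
        - dl j i * (dl l k * ip ω ω - ((q : ℝ) + 2) * MB ω (e l) (e k))
        + ((q : ℝ) + 2) * (dl l k * MB ω (e i) (e j) - dl l i * MB ω (e k) (e j))
        + ((q : ℝ) + 2) * ((q : ℝ) + 1) * Gm ω k i j l) := by
  have h1 : (Lw (e k) (Lw (e i) ω)).curryLeft (e j)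
      = dl j k • Lw (e i) ω - (dl j i • Lw (e k) ω
        - Lw (e k) (Lw (e i) (ω.curryLeft (e j)))) := by
    rw [car, car, Lw_sub, Lw_smul, inner_e, inner_e, dl_comm k, dl_comm i]
  have h2 : ∀ α : Form n (q + 1), (Lw (e k) (Lw (e i) α)).curryLeft (e l)
      = dl l k • Lw (e i) α - (dl l i • Lw (e k) α
        - Lw (e k) (Lw (e i) (α.curryLeft (e l)))) := by
    intro α
    rw [car, car, Lw_sub, Lw_smul, inner_e, inner_e, dl_comm k, dl_comm i]
  have h3 : ip (Lw (e l) ω) (Lw (e k) (Lw (e i) (ω.curryLeft (e j))))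
      = ((q : ℝ) + 3) * (((q : ℝ) + 2) * (dl l k * MB ω (e i) (e j) - dl l i * MB ω (e k) (e j))
        + ((q : ℝ) + 2) * ((q : ℝ) + 1) * Gm ω k i j l) := by
    rw [adj, h2, ip_sub_right, ip_sub_right, ip_smul_right, ip_smul_right, adj', adj', adj', adj']
    rw [MB_apply, MB_apply]
    unfold Gm
    push_cast
    ring
  rw [adj, h1, ip_sub_right, ip_sub_right, ip_smul_right, ip_smul_right, h3, ip_wedge, ip_wedge,
    inner_e, inner_e]
  push_cast
  ring

lemma Gm_st {κ q : ℕ} (hn : n = κ + q + 4) (ω : Form n (q + 2)) (l j i k : Fin n) :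
    Gm (st (κ + 2) ω) l j i k = ((κ.factorial : ℝ) / ((q + 4).factorial : ℝ))
      * ip (Lw (e j) (Lw (e l) ω)) (Lw (e k) (Lw (e i) ω)) := by
  unfold Gm
  rw [st_curry, st_curry, st_curry, st_curry, st_ip κ (q + 4) (by omega)]

lemma sum_dl (f : Fin n → ℝ) (i : Fin n) : ∑ j, dl i j * f j = f i := by
  unfold dl
  simp

lemma rA_st {w : Fin n → Fin n → Fin n → Fin n → ℝ} {κ q : ℕ} (hn : n = κ + q + 4)
    (ω : Form n (q + 2)) :
    rA w (st (κ + 2) ω) = (((κ + 1).factorial : ℝ) / ((q + 3).factorial : ℝ))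
      * (((q : ℝ) + 3) * (scalA w * ip ω ω - ((q : ℝ) + 2) * rA w ω)) := by
  have h1 : ∀ j k : Fin n, ricA w j k * MB (st (κ + 2) ω) (e j) (e k)
      = ((((κ + 1).factorial : ℝ) / ((q + 3).factorial : ℝ)) * ((q : ℝ) + 3) * ip ω ω)
          * (dl j k * ricA w j k)
        - ((((κ + 1).factorial : ℝ) / ((q + 3).factorial : ℝ)) * ((q : ℝ) + 3)
          * ((q : ℝ) + 2)) * (ricA w j k * MB ω (e j) (e k)) := by
    intro j k
    rw [MB_st hn, inner_e]
    ring
  unfold rA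
  simp_rw [h1, Finset.sum_sub_distrib, ← Finset.mul_sum]
  have h2 : ∑ j, ∑ k, dl j k * ricA w j k = scalA w := by
    unfold scalA
    exact Finset.sum_congr rfl fun j _ => sum_dl _ j
  rw [h2]
  ring

lemma QA_st {w : Fin n → Fin n → Fin n → Fin n → ℝ} (h : IsCurv w) {κ q : ℕ}
    (hn : n = κ + q + 4) (ω : Form n (q + 2)) :
    QA w (st (κ + 2) ω) = ((κ.factorial : ℝ) / ((q + 4).factorial : ℝ))
      * (((q : ℝ) + 4) * ((q : ℝ) + 3) * (scalA w * ip ω ω - 2 * ((q : ℝ) + 2) * rA w ω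
        + ((q : ℝ) + 2) * ((q : ℝ) + 1) * QA w ω)) := by
  have hw0 : ∀ i k l, w i i k l = 0 := by
    intro i k l
    have := h.anti i i k l
    linarith
  have hw1 : ∀ i j k, w i j k k = 0 := by
    intro i j k
    have := h.anti' i j k k
    linarith
  set C : ℝ := ((κ.factorial : ℝ) / ((q + 4).factorial : ℝ)) * (((q : ℝ) + 4) * ((q : ℝ) + 3))
    with hC
  have h1 : ∀ i j k l : Fin n, w i j k l * Gm (st (κ + 2) ω) l j i k
      = C * ip ω ω * (dl j k * (dl l i * w i j k l))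
        - C * ((q : ℝ) + 2) * (dl j k * (w i j k l * MB ω (e l) (e i)))
        - C * (dl j i * (w i j k l * (dl l k * ip ω ω - ((q : ℝ) + 2) * MB ω (e l) (e k))))
        + C * ((q : ℝ) + 2) * (dl l k * (w i j k l * MB ω (e i) (e j)))
        - C * ((q : ℝ) + 2) * (dl l i * (w i j k l * MB ω (e k) (e j)))
        + C * (((q : ℝ) + 2) * ((q : ℝ) + 1)) * (w i j k l * Gm ω k i j l) := by
    intro i j k l
    rw [Gm_st hn, ip_wedge2, hC]
    ring
  unfold QA
  simp_rw [h1, Finset.sum_add_distrib, Finset.sum_sub_distrib, Finset.sum_add_distrib,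
    Finset.sum_sub_distrib, ← Finset.mul_sum]
  have t1 : ∑ i, ∑ j, ∑ k, dl j k * ∑ l, dl l i * w i j k l = scalA w := by
    have a1 : ∀ i j : Fin n, ∑ k, dl j k * ∑ l, dl l i * w i j k l = w i j j i := by
      intro i j
      rw [sum_dl (fun k => ∑ l, dl l i * w i j k l)]
      simp_rw [dl_comm _ i]
      exact sum_dl _ i
    simp_rw [a1]
    rw [Finset.sum_comm]
    rfl
  have t2 : ∑ i, ∑ j, ∑ k, dl j k * ∑ l, w i j k l * MB ω (e l) (e i) = rA w ω := by
    have a1 : ∀ i j : Fin n, ∑ k, dl j k * ∑ l, w i j k l * MB ω (e l) (e i)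
        = ∑ l, w i j j l * MB ω (e l) (e i) := by
      intro i j
      rw [sum_dl (fun k => ∑ l, w i j k l * MB ω (e l) (e i))]
    simp_rw [a1]
    unfold rA
    refine Finset.sum_congr rfl fun i _ => ?_
    rw [Finset.sum_comm]
    refine Finset.sum_congr rfl fun l _ => ?_
    rw [← Finset.sum_mul, ricA_eq h, MB_comm]
  have t3 : ∑ i, ∑ j, dl j i * ∑ k, ∑ l, w i j k l
      * (dl l k * ip ω ω - ((q : ℝ) + 2) * MB ω (e l) (e k)) = 0 := by
    refine Finset.sum_eq_zero fun i _ => ?_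
    simp_rw [dl_comm _ i]
    rw [sum_dl (fun j => ∑ k, ∑ l, w i j k l
      * (dl l k * ip ω ω - ((q : ℝ) + 2) * MB ω (e l) (e k)))]
    simp [hw0]
  have t4 : ∑ i, ∑ j, ∑ k, ∑ l, dl l k * (w i j k l * MB ω (e i) (e j)) = 0 := by
    refine Finset.sum_eq_zero fun i _ => Finset.sum_eq_zero fun j _ =>
      Finset.sum_eq_zero fun k _ => ?_
    simp_rw [dl_comm _ k]
    rw [sum_dl (fun l => w i j k l * MB ω (e i) (e j)), hw1, zero_mul]
  have t5 : ∑ i, ∑ j, ∑ k, ∑ l, dl l i * (w i j k l * MB ω (e k) (e j)) = rA w ω := by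
    have a1 : ∀ i j k : Fin n, ∑ l, dl l i * (w i j k l * MB ω (e k) (e j))
        = w i j k i * MB ω (e k) (e j) := by
      intro i j k
      simp_rw [dl_comm _ i]
      exact sum_dl (fun l => w i j k l * MB ω (e k) (e j)) i
    simp_rw [a1]
    unfold rA ricA
    rw [Finset.sum_comm]
    refine Finset.sum_congr rfl fun j _ => ?_
    rw [Finset.sum_comm]
    refine Finset.sum_congr rfl fun k _ => ?_
    rw [Finset.sum_mul]
    exact Finset.sum_congr rfl fun i _ => by rw [MB_comm]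
  have t6 : ∑ i, ∑ j, ∑ k, ∑ l, w i j k l * Gm ω k i j l
      = ∑ i, ∑ j, ∑ k, ∑ l, w i j k l * Gm ω l j i k := by
    refine Finset.sum_congr rfl fun i _ => Finset.sum_congr rfl fun j _ =>
      Finset.sum_congr rfl fun k _ => Finset.sum_congr rfl fun l _ => ?_
    rw [Gm_swap12 ω k i j l, Gm_comm ω i k l j]
  rw [t1, t2, t3, t4, t5, t6]
  rw [hC]
  ring

/-- the dual bound in codegree at least two -/
theorem dual_two {w : Fin n → Fin n → Fin n → Fin n → ℝ} (h : IsCurv w)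
    (hpos : ∀ x v : Fin n → ℝ,
      0 ≤ ∑ j, ∑ k, v j * v k * (∑ i, ∑ l, x i * x l * w i j k l))
    (κ q : ℕ) (hq : Odd q) (hn : n = κ + q + 4) (ω : Form n (q + 2)) :
    3 * (((q : ℝ) + 2) * (((q : ℝ) + 1) * QA w ω))
      ≤ ((q : ℝ) + 1) * (scalA w * ip ω ω) + ((q : ℝ) + 2) * (2 - (q : ℝ)) * rA w ω := by
  have key := univ_sharp h hpos (q + 2) κ (hq.add_even even_two) (by omega) (st (κ + 2) ω)
  rw [QA_st h hn, rA_st hn] at key
  have hf1 : ((κ + 1).factorial : ℝ) = ((κ : ℝ) + 1) * (κ.factorial : ℝ) := by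
    rw [Nat.factorial_succ]; push_cast; ring
  have hf2 : ((q + 4).factorial : ℝ) = ((q : ℝ) + 4) * ((q + 3).factorial : ℝ) := by
    rw [Nat.factorial_succ]; push_cast; ring
  have hκ : (0 : ℝ) < (κ.factorial : ℝ) := by exact_mod_cast κ.factorial_pos
  have hq3 : (0 : ℝ) < ((q + 3).factorial : ℝ) := by exact_mod_cast (q + 3).factorial_pos
  have hκ1 : (0 : ℝ) < (κ : ℝ) + 1 := by positivity
  have hq4 : (0 : ℝ) < (q : ℝ) + 4 := by positivity
  have hq33 : (0 : ℝ) < (q : ℝ) + 3 := by positivity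
  rw [hf1, hf2] at key
  have e1 : 3 * (((κ : ℝ) + 1) * ((κ.factorial : ℝ) / (((q : ℝ) + 4) * ((q + 3).factorial : ℝ))
      * (((q : ℝ) + 4) * ((q : ℝ) + 3) * (scalA w * ip ω ω - 2 * ((q : ℝ) + 2) * rA w ω
        + ((q : ℝ) + 2) * ((q : ℝ) + 1) * QA w ω))))
      = (((κ : ℝ) + 1) * (κ.factorial : ℝ) * ((q : ℝ) + 3) / ((q + 3).factorial : ℝ))
        * (3 * (scalA w * ip ω ω - 2 * ((q : ℝ) + 2) * rA w ω
        + ((q : ℝ) + 2) * ((q : ℝ) + 1) * QA w ω)) := by
    field_simp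
  have e2 : (((q + 2 : ℕ) : ℝ) + 2) * (((κ : ℝ) + 1) * (κ.factorial : ℝ)
      / ((q + 3).factorial : ℝ)
      * (((q : ℝ) + 3) * (scalA w * ip ω ω - ((q : ℝ) + 2) * rA w ω)))
      = (((κ : ℝ) + 1) * (κ.factorial : ℝ) * ((q : ℝ) + 3) / ((q + 3).factorial : ℝ))
        * (((q : ℝ) + 4) * (scalA w * ip ω ω - ((q : ℝ) + 2) * rA w ω)) := by
    push_cast
    ring
  rw [e1, e2] at key
  have hc : 0 < ((κ : ℝ) + 1) * (κ.factorial : ℝ) * ((q : ℝ) + 3) / ((q + 3).factorial : ℝ) := by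
    positivity
  have k2 := le_of_mul_le_mul_left key hc
  nlinarith [k2]


lemma ric_symm {w : Fin n → Fin n → Fin n → Fin n → ℝ} (h : IsCurv w) (j k : Fin n) :
    ricA w j k = ricA w k j := by
  unfold ricA
  refine Finset.sum_congr rfl fun i _ => ?_
  rw [h.flip i j k i]

lemma ric_psd {w : Fin n → Fin n → Fin n → Fin n → ℝ}
    (hpos : ∀ x v : Fin n → ℝ,
      0 ≤ ∑ j, ∑ k, v j * v k * (∑ i, ∑ l, x i * x l * w i j k l)) (v : Fin n → ℝ) :
    0 ≤ ∑ j, ∑ k, v j * v k * ricA w j k := by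
  have h1 : ∑ j, ∑ k, v j * v k * ricA w j k
      = ∑ i : Fin n, ∑ j, ∑ k, v j * v k * (∑ a, ∑ b, dl i a * dl i b * w a j k b) := by
    rw [Finset.sum_comm]
    rw [Finset.sum_comm]
    have h2 : ∀ i j k : Fin n, ∑ a, ∑ b, dl i a * dl i b * w a j k b = w i j k i := by
      intro i j k
      have h3 : ∀ a, ∑ b, dl i a * dl i b * w a j k b = dl i a * w a j k i := by
        intro a
        rw [← sum_dl (fun b => dl i a * w a j k b) i]
        exact Finset.sum_congr rfl fun b _ => by ring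
      simp_rw [h3]
      exact sum_dl (fun a => w a j k i) i
    simp_rw [h2]
    unfold ricA
    simp_rw [Finset.mul_sum]
    rw [Finset.sum_comm (s := (Finset.univ : Finset (Fin n)))]
    conv_rhs => rw [Finset.sum_comm]
    rw [Finset.sum_comm]
    refine Finset.sum_congr rfl fun j _ => ?_
    rw [Finset.sum_comm]
  rw [h1]
  exact Finset.sum_nonneg fun i _ => hpos (fun a => dl i a) v

lemma rA_le {q : ℕ} {w : Fin n → Fin n → Fin n → Fin n → ℝ} (h : IsCurv w)
    (hpos : ∀ x v : Fin n → ℝ,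
      0 ≤ ∑ j, ∑ k, v j * v k * (∑ i, ∑ l, x i * x l * w i j k l)) (ω : Form n (q + 1)) :
    ((q : ℝ) + 1) * rA w ω ≤ scalA w * ip ω ω := by
  have h1 := sum_mul_nonneg (ricA w)
    (fun j k => dl j k * ip ω ω - ((q : ℝ) + 1) * MB ω (e j) (e k)) (ric_symm h) (ric_psd hpos)
    (fun j k => by rw [dl_comm, MB_comm]) (fun v => by
      have h2 : ∑ j, ∑ k, v j * v k * (dl j k * ip ω ω - ((q : ℝ) + 1) * MB ω (e j) (e k))
          = ‖vec v‖ ^ 2 * ip ω ω
            - ((q : ℝ) + 1) * ip (ω.curryLeft (vec v)) (ω.curryLeft (vec v)) := by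
        have h3 : ∀ j k, v j * v k * (dl j k * ip ω ω - ((q : ℝ) + 1) * MB ω (e j) (e k))
            = ip ω ω * (dl j k * (v j * v k))
              - ((q : ℝ) + 1) * (v j * v k * MB ω (e j) (e k)) := by
          intro j k; ring
        simp_rw [h3, Finset.sum_sub_distrib, ← Finset.mul_sum]
        have h4 := bilin_expand (MB ω) (vec v) (vec v)
        simp only [vec_apply] at h4
        rw [← h4, ← MB_apply, norm_sq]
        have h5 : ∀ j : Fin n, ∑ k, dl j k * (v j * v k) = v j * v j :=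
          fun j => sum_dl (fun k => v j * v k) j
        simp_rw [h5]
        have h6 : ∑ i, (vec v : E n) i ^ 2 = ∑ j, v j * v j :=
          Finset.sum_congr rfl fun i _ => by rw [vec_apply]; ring
        rw [h6]
        ring
      rw [h2]
      have := pauli q ω (vec v)
      linarith)
  have h2 : ∑ j, ∑ k, ricA w j k * (dl j k * ip ω ω - ((q : ℝ) + 1) * MB ω (e j) (e k))
      = scalA w * ip ω ω - ((q : ℝ) + 1) * rA w ω := by
    have h3 : ∀ j k, ricA w j k * (dl j k * ip ω ω - ((q : ℝ) + 1) * MB ω (e j) (e k))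
        = ip ω ω * (dl j k * ricA w j k) - ((q : ℝ) + 1) * (ricA w j k * MB ω (e j) (e k)) := by
      intro j k; ring
    simp_rw [h3, Finset.sum_sub_distrib, ← Finset.mul_sum]
    have h4 : ∑ j, ∑ k, dl j k * ricA w j k = scalA w := by
      unfold scalA
      exact Finset.sum_congr rfl fun j _ => sum_dl _ j
    rw [h4]
    unfold rA
    ring
  rw [h2] at h1
  linarith

/-- **The dual of the sharp second contraction bound, for forms of odd degree.** -/
theorem dual_sharp {w : Fin n → Fin n → Fin n → Fin n → ℝ} (h : IsCurv w)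
    (hpos : ∀ x v : Fin n → ℝ,
      0 ≤ ∑ j, ∑ k, v j * v k * (∑ i, ∑ l, x i * x l * w i j k l))
    (k q : ℕ) (hq : Odd (q + 2)) (hn : n = k + q + 2) (hk : 1 ≤ k) (ω : Form n (q + 2)) :
    3 * (((q : ℝ) + 2) * (((q : ℝ) + 1) * QA w ω))
      ≤ ((q : ℝ) + 1) * (scalA w * ip ω ω) + ((q : ℝ) + 2) * ((2 - (q : ℝ)) * rA w ω) := by
  have hq' : Odd q := by
    rcases Nat.even_or_odd q with he | ho
    · exact absurd (he.add even_two) (Nat.not_even_iff_odd.mpr hq)
    · exact ho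
  obtain ⟨κ, rfl | rfl⟩ : ∃ κ, k = 1 ∨ k = κ + 2 := by
    rcases Nat.lt_or_ge k 2 with h1 | h1
    · exact ⟨0, Or.inl (by omega)⟩
    · exact ⟨k - 2, Or.inr (by omega)⟩
  · have h1 := univ_sharp h hpos 1 q odd_one hn ω
    have h2 := rA_le h hpos ω
    push_cast at h1 h2
    have hq0 : (0 : ℝ) ≤ q := Nat.cast_nonneg q
    nlinarith [mul_le_mul_of_nonneg_left h1 (by linarith : (0 : ℝ) ≤ (q : ℝ) + 2),
      mul_le_mul_of_nonneg_left h2 (by linarith : (0 : ℝ) ≤ (q : ℝ) + 1)]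
  · have := dual_two h hpos κ q hq' (by omega) ω
    linarith

end Pool.Agent.H21.OS
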