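import Pool.Agent.H21.OS.Defs

set_option autoImplicit false

/-! Forms of top degree. -/

namespace Pool.Agent.H21.OS

open Pool.Agent.H61.YP Pool.Agent.H8.RG Pool.Agent.H91.OC
open scoped RealInnerProductSpace BigOperators

variable {n : ℕ}

theorem top_ip (α β : Form n n) :
    ip α β = (n.factorial : ℝ) * (α (fun i => e i) * β (fun i => e i)) := by
  classical
  unfold ip
  have h1 : ∀ J : Fin n → Fin n, J ∉ Set.range (fun σ : Equiv.Perm (Fin n) => (σ : Fin n → Fin n)) →
      α (fun k => e (J k)) * β (fun k => e (J k)) = 0 := by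
    intro J hJ
    have hinj : ¬ Function.Injective J := by
      intro h
      apply hJ
      exact ⟨Equiv.ofBijective J (Finite.injective_iff_bijective.1 h), by ext i; simp⟩
    have : ¬ Function.Injective (fun k => (e (J k) : E n)) := by
      intro h
      apply hinj
      intro a b hab
      apply h
      simp only [hab]
    rw [AlternatingMap.map_eq_zero_of_not_injective α _ this, zero_mul]
  have hinj : Function.Injective (fun σ : Equiv.Perm (Fin n) => (σ : Fin n → Fin n)) :=
    DFunLike.coe_injective
  have h2 : ∑ J : Fin n → Fin n, α (fun k => e (J k)) * β (fun k => e (J k))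
      = ∑ σ : Equiv.Perm (Fin n), α (fun k => e (σ k)) * β (fun k => e (σ k)) := by
    symm
    apply Finset.sum_of_injOn (fun σ : Equiv.Perm (Fin n) => (σ : Fin n → Fin n))
    · exact hinj.injOn
    · intro σ _
      simp
    · intro J _ hJ
      apply h1
      intro ⟨σ, hσ⟩
      exact hJ ⟨σ, by simp, hσ⟩
    · intro σ _
      rfl
  rw [h2]
  have h3 : ∀ σ : Equiv.Perm (Fin n), α (fun k => e (σ k)) * β (fun k => e (σ k))
      = α (fun i => e i) * β (fun i => e i) := by
    intro σ
    have ha := AlternatingMap.map_perm α (fun i => (e i : E n)) σ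
    have hb := AlternatingMap.map_perm β (fun i => (e i : E n)) σ
    have e1 : (fun k => (e (σ k) : E n)) = (fun i => (e i : E n)) ∘ σ := rfl
    rw [e1, ha, hb]
    rcases Int.units_eq_one_or (Equiv.Perm.sign σ) with h | h <;> rw [h] <;> simp
  rw [Finset.sum_congr rfl (fun σ _ => h3 σ)]
  rw [Finset.sum_const, Finset.card_univ, Fintype.card_perm, Fintype.card_fin, nsmul_eq_mul]

theorem st_zero_ip (p : ℕ) (hp : p = n) (α β : Form n p) :
    ip (st 0 α) (st 0 β) = (n.factorial : ℝ)⁻¹ * ip α β := by
  subst hp
  rw [top_ip α β]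
  have hf : (fr p p : Fin p → E p) = fun i => e i := by
    funext i
    simp [fr]
  have h0 : ip (st 0 α) (st 0 β) = α (fr p p) * β (fr p p) := by
    unfold ip
    simp [st]
  rw [h0, hf]
  have hne : (p.factorial : ℝ) ≠ 0 := by exact_mod_cast p.factorial_ne_zero
  field_simp

end Pool.Agent.H21.OS
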