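import Pool.Agent.H21.OS.Star
import Pool.Agent.H21.OS.Top

set_option autoImplicit false

/-! Exterior multiplication and the Hodge star: norms. -/

namespace Pool.Agent.H21.OS

open Pool.Agent.H61.YP Pool.Agent.H8.RG Pool.Agent.H91.OC
open scoped RealInnerProductSpace BigOperators

variable {n : ℕ}

private theorem ee_nm (i : Fin n) : ⟪(e i : E n), e i⟫ = 1 := by
  simp [e]

private theorem ip_sub_right_nm {p : ℕ} (α β γ : Form n p) : ip α (β - γ) = ip α β - ip α γ := by
  rw [← ipB_apply, ← ipB_apply, ← ipB_apply, map_sub]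

theorem wedge_sum {p : ℕ} (α β : Form n p) :
    ∑ i, ip (Lw (e i) α) (Lw (e i) β) = ((p : ℝ) + 1) * ((n : ℝ) - p) * ip α β := by
  cases p with
  | zero =>
    have h : ∀ i : Fin n, ip (Lw (e i) α) (Lw (e i) β) = ip α β := by
      intro i
      rw [adj, car0, ee_nm, one_smul]
      simp
    simp only [h]
    rw [Finset.sum_const, Finset.card_univ, Fintype.card_fin, nsmul_eq_mul]
    push_cast
    ring
  | succ q =>
    have h : ∀ i : Fin n, ip (Lw (e i) α) (Lw (e i) β)
        = ((q : ℝ) + 2) * (ip α β
          - ((q : ℝ) + 1) * ip (β.curryLeft (e i)) (α.curryLeft (e i))) := by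
      intro i
      rw [adj, car, ee_nm, one_smul, ip_sub_right_nm, ip_comm α (Lw (e i) _), adj]
      push_cast
      ring
    simp only [h]
    rw [← Finset.mul_sum, Finset.sum_sub_distrib, ← Finset.mul_sum, ← ip_succ,
      Finset.sum_const, Finset.card_univ, Fintype.card_fin, nsmul_eq_mul, ip_comm β α]
    push_cast
    ring

theorem st_ip : ∀ (k p : ℕ), p + k = n → ∀ α β : Form n p,
    ip (st k α) (st k β) = ((k.factorial : ℝ) / (p.factorial : ℝ)) * ip α β := by
  intro k
  induction k with
  | zero =>
    intro p hp α β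
    have hp' : p = n := by omega
    have hf : (p.factorial : ℝ) = (n.factorial : ℝ) := by rw [hp']
    rw [st_zero_ip p hp' α β, hf]
    simp
  | succ k ih =>
    intro p hp α β
    rw [ip_succ]
    have h : ∀ i : Fin n, ip ((st (k + 1) α).curryLeft (e i)) ((st (k + 1) β).curryLeft (e i))
        = ((k.factorial : ℝ) / ((p + 1).factorial : ℝ)) * ip (Lw (e i) α) (Lw (e i) β) := by
      intro i
      rw [st_curry, st_curry]
      exact ih (p + 1) (by omega) _ _
    simp only [h]
    rw [← Finset.mul_sum, wedge_sum]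
    have hn : (n : ℝ) - p = (k : ℝ) + 1 := by
      rw [← hp]
      push_cast
      ring
    rw [hn, Nat.factorial_succ p, Nat.factorial_succ k]
    have h1 : (p.factorial : ℝ) ≠ 0 := by exact_mod_cast p.factorial_ne_zero
    have h2 : (p : ℝ) + 1 ≠ 0 := by positivity
    push_cast
    field_simp

end Pool.Agent.H21.OS
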