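import Pool.Agent.H21.OS.Wedge

set_option autoImplicit false

/-! Module Star of project OS: contraction of the Hodge star. -/

namespace Pool.Agent.H21.OS

open Pool.Agent.H61.YP Pool.Agent.H8.RG Pool.Agent.H91.OC
open scoped RealInnerProductSpace BigOperators

variable {n : ℕ}

/-- the alternatization of a map with antisymmetric contractions -/
private lemma uncurry_Star {k : ℕ} (f : E n →ₗ[ℝ] Form n (k + 1))
    (h : ∀ x y, (f x).curryLeft y = -(f y).curryLeft x) (x : E n) :
    (AlternatingMap.alternatizeUncurryFin f).curryLeft x = ((k : ℝ) + 2) • f x := by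
  ext v
  rw [AlternatingMap.curryLeft_apply_apply, AlternatingMap.alternatizeUncurryFin_apply,
    Fin.sum_univ_succ]
  have h1 : ∀ j : Fin (k + 1), (-1 : ℤ) ^ ((Fin.succ j : Fin (k + 2)) : ℕ) •
      (f ((Matrix.vecCons x v : Fin (k + 2) → E n) j.succ))
        (Fin.removeNth j.succ (Matrix.vecCons x v))
      = (-1 : ℤ) ^ (j : ℕ) • ((f x).curryLeft (v j)) (Fin.removeNth j v) := by
    intro j
    have e1 : (Matrix.vecCons x v : Fin (k + 2) → E n) j.succ = v j := rfl
    have e2 : (Fin.removeNth j.succ (Matrix.vecCons x v) : Fin (k + 1) → E n)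
        = Matrix.vecCons x (Fin.removeNth j v) := by
      funext i
      refine Fin.cases ?_ (fun i => ?_) i
      · simp [Fin.removeNth]
      · simp [Fin.removeNth]
    rw [e1, e2, ← AlternatingMap.curryLeft_apply_apply, h (v j) x, Fin.val_succ, pow_succ]
    simp
  have h2 := congrArg (fun g : Form n (k + 1) => g v)
    (AlternatingMap.alternatizeUncurryFin_curryLeft (f x))
  simp only [AlternatingMap.alternatizeUncurryFin_apply] at h2
  rw [Finset.sum_congr rfl fun j _ => h1 j, h2]
  have e3 : (Fin.removeNth 0 (Matrix.vecCons x v : Fin (k + 2) → E n)) = v := by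
    funext i
    simp [Fin.removeNth]
  have e4 : (Matrix.vecCons x v : Fin (k + 2) → E n) 0 = x := rfl
  rw [e3, e4]
  simp only [Fin.val_zero, pow_zero, one_smul, AlternatingMap.smul_apply, smul_eq_mul,
    nsmul_eq_mul]
  push_cast
  ring

private lemma st_succ_Star {p : ℕ} (k : ℕ) (α : Form n p) :
    st (k + 1) α = ((k : ℝ) + 1)⁻¹ • AlternatingMap.alternatizeUncurryFin
      ((st k (p := p + 1)) ∘ₗ ((LB n p).flip α)) := rfl

private lemma smul_curry_Star {k : ℕ} (c : ℝ) (g : Form n (k + 1)) (x : E n) :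
    (c • g).curryLeft x = c • g.curryLeft x := rfl

theorem st_curry {p : ℕ} (k : ℕ) (x : E n) (α : Form n p) :
    (st (k + 1) α).curryLeft x = st k (Lw x α) := by
  induction k generalizing p x with
  | zero =>
    rw [st_succ_Star, smul_curry_Star]
    ext v
    rw [AlternatingMap.smul_apply, AlternatingMap.curryLeft_apply_apply,
      AlternatingMap.alternatizeUncurryFin_apply, Fin.sum_univ_succ]
    have e3 : (Fin.removeNth 0 (Matrix.vecCons x v : Fin 1 → E n)) = v := Subsingleton.elim _ _
    have e4 : (Matrix.vecCons x v : Fin 1 → E n) 0 = x := rfl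
    rw [e3, e4]
    simp [Lw]
  | succ k ih =>
    rw [st_succ_Star, smul_curry_Star, uncurry_Star]
    · have e5 : ((st (k + 1) (p := p + 1)) ∘ₗ ((LB n p).flip α)) x = st (k + 1) (Lw x α) := rfl
      rw [e5, smul_smul]
      have e6 : (((k + 1 : ℕ) : ℝ) + 1)⁻¹ * ((k : ℝ) + 2) = 1 := by
        push_cast
        have : (k : ℝ) + 1 + 1 ≠ 0 := by positivity
        field_simp
        ring
      rw [e6, one_smul]
    · intro y z
      have e7 : ∀ y z : E n, (((st (k + 1) (p := p + 1)) ∘ₗ ((LB n p).flip α)) y).curryLeft z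
          = st k (Lw z (Lw y α)) := fun y z => ih z (Lw y α)
      rw [e7, e7, Lw_anti, map_neg]

end Pool.Agent.H21.OS
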