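import Pool.Agent.H21.OS.Defs

set_option autoImplicit false

/-! Exterior multiplication by a vector: formulas. -/

namespace Pool.Agent.H21.OS

open Pool.Agent.H61.YP Pool.Agent.H8.RG Pool.Agent.H91.OC
open scoped RealInnerProductSpace BigOperators

variable {n : ℕ}

theorem Lw_apply {p : ℕ} (x : E n) (α : Form n p) (v : Fin (p + 1) → E n) :
    Lw x α v = ∑ i : Fin (p + 1), (-1 : ℝ) ^ (i : ℕ) * (⟪x, v i⟫ * α (Fin.removeNth i v)) := by
  unfold Lw LB
  rw [LinearMap.mk₂_apply, AlternatingMap.alternatizeUncurryFin_apply]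
  refine Finset.sum_congr rfl fun i _ => ?_
  simp [zsmul_eq_mul]

theorem car0 (x y : E n) (α : Form n 0) : (Lw x α).curryLeft y = ⟪x, y⟫ • α := by
  ext v
  rw [AlternatingMap.curryLeft_apply_apply, Lw_apply, Fin.sum_univ_succ, Fin.sum_univ_zero, add_zero,
    AlternatingMap.smul_apply, smul_eq_mul]
  have h1 : (Fin.removeNth 0 (Matrix.vecCons y v) : Fin 0 → E n) = v := Subsingleton.elim _ _
  rw [h1]
  simp

theorem car {p : ℕ} (x y : E n) (α : Form n (p + 1)) :
    (Lw x α).curryLeft y = ⟪x, y⟫ • α - Lw x (α.curryLeft y) := by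
  ext v
  rw [AlternatingMap.curryLeft_apply_apply, Lw_apply, Fin.sum_univ_succ, AlternatingMap.sub_apply,
    AlternatingMap.smul_apply, smul_eq_mul, Lw_apply, sub_eq_add_neg, ← Finset.sum_neg_distrib]
  congr 1
  · have h1 : (Fin.removeNth 0 (Matrix.vecCons y v) : Fin (p + 1) → E n) = v := by
      funext k
      simp [Fin.removeNth_apply]
    rw [h1]
    simp
  · refine Finset.sum_congr rfl fun i _ => ?_
    have h1 : (Fin.removeNth i.succ (Matrix.vecCons y v) : Fin (p + 1) → E n) =
        Matrix.vecCons y (Fin.removeNth i v) := by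
      funext k
      refine Fin.cases ?_ (fun k => ?_) k
      · simp [Fin.removeNth_apply]
      · simp [Fin.removeNth_apply]
    rw [h1, AlternatingMap.curryLeft_apply_apply, Fin.val_succ, pow_succ]
    simp

private theorem Wedge_zero {p : ℕ} (D : Form n (p + 1)) (h : ∀ z, D.curryLeft z = 0) : D = 0 := by
  ext v
  have h1 := congrArg (fun F : Form n p => F (Matrix.vecTail v)) (h (v 0))
  simp only [AlternatingMap.curryLeft_apply_apply] at h1
  have h2 : (Matrix.vecCons (v 0) (Matrix.vecTail v) : Fin (p + 1) → E n) = v := by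
    exact Matrix.cons_head_tail v
  rw [h2] at h1
  exact h1

private theorem Wedge_add {p : ℕ} (x : E n) (α β : Form n p) : Lw x (α + β) = Lw x α + Lw x β := by
  unfold Lw
  rw [map_add]

private theorem Wedge_sub {p : ℕ} (x : E n) (α β : Form n p) : Lw x (α - β) = Lw x α - Lw x β := by
  unfold Lw
  rw [map_sub]

private theorem Wedge_smul {p : ℕ} (x : E n) (c : ℝ) (α : Form n p) : Lw x (c • α) = c • Lw x α := by
  unfold Lw
  rw [map_smul]

theorem Lw_anti {p : ℕ} (x y : E n) (α : Form n p) : Lw x (Lw y α) = -Lw y (Lw x α) := by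
  rw [eq_neg_iff_add_eq_zero]
  induction p with
  | zero =>
    apply Wedge_zero
    intro z
    have h : (Lw x (Lw y α) + Lw y (Lw x α)).curryLeft z =
        (Lw x (Lw y α)).curryLeft z + (Lw y (Lw x α)).curryLeft z := by
      rw [AlternatingMap.curryLeft_add]; rfl
    rw [h, car, car, car0, car0, Wedge_smul, Wedge_smul]
    abel
  | succ p ih =>
    apply Wedge_zero
    intro z
    have h : (Lw x (Lw y α) + Lw y (Lw x α)).curryLeft z =
        (Lw x (Lw y α)).curryLeft z + (Lw y (Lw x α)).curryLeft z := by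
      rw [AlternatingMap.curryLeft_add]; rfl
    rw [h, car, car, car, car, Wedge_sub, Wedge_sub, Wedge_smul, Wedge_smul]
    have h2 := ih (α.curryLeft z)
    have h3 : ⟪x, z⟫ • Lw y α - (⟪y, z⟫ • Lw x α - Lw x (Lw y (α.curryLeft z))) +
        (⟪y, z⟫ • Lw x α - (⟪x, z⟫ • Lw y α - Lw y (Lw x (α.curryLeft z)))) =
        Lw x (Lw y (α.curryLeft z)) + Lw y (Lw x (α.curryLeft z)) := by abel
    rw [h3, h2]

private theorem Wedge_ip_sub {q : ℕ} (φ φ' ψ : Form n q) : ip (φ - φ') ψ = ip φ ψ - ip φ' ψ := by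
  have h1 : φ - φ' = φ + (-1 : ℝ) • φ' := by
    ext v
    rw [AlternatingMap.sub_apply, AlternatingMap.add_apply, AlternatingMap.smul_apply, smul_eq_mul]
    ring
  rw [h1, ip_add_left, ip_smul_left]
  ring

private theorem Wedge_inner (x : E n) (i : Fin n) : ⟪x, e i⟫ = x i := by
  unfold e
  rw [EuclideanSpace.inner_single_right]
  simp

private theorem Wedge_lin {q : ℕ} (x : E n) (α : Form n q) (β : Form n (q + 1)) :
    ∑ i, ip (⟪x, e i⟫ • α) (β.curryLeft (e i)) = ip α (β.curryLeft x) := by
  have h1 : β.curryLeft x = ∑ i, x i • β.curryLeft (e i) := by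
    conv_lhs => rw [← sum_coord x]
    rw [map_sum]
    exact Finset.sum_congr rfl fun i _ => by rw [map_smul]
  have h2 : ip α (β.curryLeft x) = ∑ i, x i * ip α (β.curryLeft (e i)) := by
    rw [h1, ← ipB_apply, map_sum]
    exact Finset.sum_congr rfl fun i _ => by rw [map_smul, ipB_apply, smul_eq_mul]
  rw [h2]
  exact Finset.sum_congr rfl fun i _ => by rw [ip_smul_left, Wedge_inner]

theorem adj {p : ℕ} (x : E n) (α : Form n p) (β : Form n (p + 1)) :
    ip (Lw x α) β = ((p : ℝ) + 1) * ip α (β.curryLeft x) := by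
  induction p with
  | zero =>
    rw [ip_succ, Finset.sum_congr rfl fun i _ => by rw [car0 x (e i) α], Wedge_lin]
    simp
  | succ p ih =>
    rw [ip_succ, Finset.sum_congr rfl fun i _ => by rw [car x (e i) α, Wedge_ip_sub],
      Finset.sum_sub_distrib, Wedge_lin]
    have h1 : ∀ i, ip (Lw x (α.curryLeft (e i))) (β.curryLeft (e i)) =
        -(((p : ℝ) + 1) * ip (α.curryLeft (e i)) ((β.curryLeft x).curryLeft (e i))) := by
      intro i
      rw [ih, curry_swap β (e i) x, ip_comm]
      have h2 : -(β.curryLeft x).curryLeft (e i) = (-1 : ℝ) • (β.curryLeft x).curryLeft (e i) := by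
        ext v
        rw [AlternatingMap.neg_apply, AlternatingMap.smul_apply, smul_eq_mul]
        ring
      rw [h2, ip_smul_left, ip_comm]
      ring
    rw [Finset.sum_congr rfl fun i _ => h1 i, Finset.sum_neg_distrib, ← Finset.mul_sum, ← ip_succ]
    push_cast
    ring

end Pool.Agent.H21.OS
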